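import Mathlib
import Pool.Agent.Lib.MP_eab41b_pr.B.Z4

/-!
# The longest temporal period for spatial periods between `r` and `2 r`

For every integer `σ` there is one limit law: for all integers `r` with `r < σ < 2 r` the random
variables `X_{σ,n} / n^{σ/2}` converge in distribution to it as `n → ∞`, and it is concentrated on
the positive numbers.
-/

open MeasureTheory Filter Topology

namespace Pool.Agent.Results.MP_eab41b_pr.BelowTwice

open RandomCA

theorem result (σ : ℕ) :
    ∃ μ : ProbabilityMeasure ℝ, ∀ r : ℕ, r < σ → σ < 2 * r →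
      Tendsto (fun n : ℕ => law r σ (n + 2)) atTop (𝓝 μ) ∧ (μ : Measure ℝ) (Set.Iic 0) = 0 :=
  CAB.main_all σ

end Pool.Agent.Results.MP_eab41b_pr.BelowTwice
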