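import Mathlib
import Pool.Agent.Lib.MP_eab41b_pr.R9c

/-!
# The longest temporal period for random rules with one neighbour

For `r = 1` and every spatial period `σ ≥ 1` the random variables `X_{σ,n} / n^{σ/2}` converge in
distribution as `n → ∞`, and the limit law is concentrated on the positive numbers.
-/

open MeasureTheory Filter Topology

namespace Pool.Agent.Results.MP_eab41b_pr.OneNeighbor

open RandomCA

theorem result (σ : ℕ) (hσ : 1 ≤ σ) :
    ∃ μ : ProbabilityMeasure ℝ, Tendsto (fun n : ℕ => law 1 σ (n + 2)) atTop (𝓝 μ) ∧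
      (μ : Measure ℝ) (Set.Iic 0) = 0 :=
  main_full σ hσ

end Pool.Agent.Results.MP_eab41b_pr.OneNeighbor
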